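import Mathlib
import Pool.Agent.R389.Simple
import Pool.Agent.R389.SmallMain

/-!
# Deligne's conjecture and the field of the zeros

Let `M` be a pure motive over `ℚ` with coefficients in the number field `E`, let `c` be a critical
integer of `M`, and let `K/ℚ` be a Galois extension with the group `G`; the field `E` contains the
roots of unity of order the exponent of `G`, so that every irreducible character `χ` of `G` is the
character of a representation over `E` (Brauer). For an embedding `τ` of `E`:

* `L τ χ` is the component at `τ` of the L-function of the motive `M ⊗ χ'`, where `χ'` is the Artin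
  motive over `E` with `τ ∘ χ' = χ`; it is meromorphic at `c` and not identically zero.
* `P τ χ` is the component at `τ` of the Deligne period of `M ⊗ χ'` at `c`.

L-functions and periods of direct sums are products. So `Deligne L P c f` (defined in
`Pool/Agent/R389/Defs.lean`) is Deligne's conjecture for the twist `M ⊗ ρ`, where `ρ` is the
representation with the character `f : G → E`: there is `e ∈ E` such that for all embeddings `τ` the
L-function of `M ⊗ ρ` has at `c` the value `τ(e)` times the period; in particular it has no pole.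

Let `N` be any normal subgroup of `G`, `F = K^N`, `λ` a character of `G` (for instance `1`), and
suppose that all zeros of `L(M/K, s)` at `c` come from `F`: for one embedding `τ₀` its order at `c` is not
larger than that of the L-function of the base change of `M ⊗ λ` to `F`. Suppose that the conjecture
holds for the twists by the characters induced from linear characters of the hyperelementary and
of the nilpotent subgroups of `G`. Let `ρ` be a representation of `G` over `E` and `σ` its part on
which `N` acts by `λ`; for `λ = 1` this is a representation of `G / N = Gal(F/ℚ)`. We prove that the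
quotient `L(M ⊗ ρ, s) / L(M ⊗ σ, s)` has at `c` the value `τ(e)` times the quotient of the periods, for all
embeddings `τ` of `E`, with one and the same `e ≠ 0` in `E`. So Deligne's conjecture for `M ⊗ ρ` is equivalent
to the conjecture for `M ⊗ σ`, and for `σ = 0` it is true and the value is not zero. It is true for
all `ρ` if all irreducible characters of `G / N` are monomial (for instance if `G / N` is
supersolvable) and the conjecture holds for the twists by all monomial characters of `G`.

There is no condition on `G` and on `N` in the first part. The main tool is the relative form of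
Brauer's theorem on induced characters of the library (`Pool.Agent.R389.relative_brauer`): a
virtual character without constituents trivial on `N` is an integral combination of characters
induced from linear characters which are nontrivial on `N`.
-/

set_option autoImplicit false
set_option linter.unusedSectionVars false

open Pool.Agent.H302R2 Pool.Agent.H302R3 Pool.Agent.H541R3.ART Pool.Agent.W446.AS
open Pool.Agent.R389 Filter Topology

namespace Pool.Agent.Results.MP_100fe7_nt.FieldOfTheZeros

/-- The L-functions and the periods at `c` of the twists of a motive by the irreducible characters of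
the finite group `G`, for the embeddings `τ` of the coefficient field `E`. -/
structure TwistData (G : Type) [Group G] (E : Type) [Field E] (c : ℂ) where
  /-- the L-function of the twist by `χ` -/
  L : (E →+* ℂ) → (G → ℂ) → ℂ → ℂ
  /-- the period of the twist by `χ` -/
  P : (E →+* ℂ) → (G → ℂ) → ℂ
  /-- the L-functions are meromorphic at `c` and not identically zero near `c` -/
  mero : ∀ τ, ∀ χ ∈ Irr G, MeromorphicAt (L τ χ) c ∧ meromorphicOrderAt (L τ χ) c ≠ ⊤
  /-- the periods are not zero -/
  period : ∀ τ, ∀ χ ∈ Irr G, P τ χ ≠ 0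

variable {G : Type} [Group G] {E : Type} [Field E] {c : ℂ}

/-- Deligne's conjecture for the twist by the representation with the character `f : G → E`. -/
def TwistData.Holds (D : TwistData G E c) (f : G → E) : Prop := Deligne D.L D.P c f

/-- The quotient form of Deligne's conjecture for two representations with the characters
`f, f' : G → E`: there is a nonzero `e ∈ E` such that for every embedding `τ` of `E` the quotient of the
L-functions has at `c` the value `τ e` times the quotient of the periods. For `f' = 0` this is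
Deligne's conjecture for `f` together with the nonvanishing of the value. -/
def TwistData.QuotientHolds (D : TwistData G E c) (f f' : G → E) : Prop :=
  ∃ e : E, e ≠ 0 ∧ ∀ (τ : E →+* ℂ) (m m' : (G → ℂ) → ℕ),
    IsDecomp (fun g => τ (f g)) m → IsDecomp (fun g => τ (f' g)) m' →
    Tendsto (fun s => (∏ᶠ χ ∈ Irr G, D.L τ χ s ^ m χ) / ∏ᶠ χ ∈ Irr G, D.L τ χ s ^ m' χ) (𝓝[≠] c)
      (𝓝 (τ e * ((∏ᶠ χ ∈ Irr G, D.P τ χ ^ m χ) / ∏ᶠ χ ∈ Irr G, D.P τ χ ^ m' χ)))

/-- The representation `σ`, with the map `ι`, is the part of the representation `ρ` of `G` on which the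
subgroup `N` acts by `λ`. -/
structure IsPart {V W : Type} [AddCommGroup V] [Module E V] [AddCommGroup W] [Module E W]
    (N : Subgroup G) (lam : G →* Eˣ) (ρ : Representation E G V) (σ : Representation E G W)
    (ι : W →ₗ[E] V) : Prop where
  /-- `σ` is a subrepresentation of `ρ` -/
  inj : Function.Injective ι
  /-- `ι` commutes with the action of `G` -/
  comm : ∀ g w, ι (σ g w) = ρ g (ι w)
  /-- the image is the space of the vectors on which `N` acts by `λ` -/
  range : ∀ v, (∃ w, ι w = v) ↔ ∀ k ∈ N, ρ k v = ((lam k : Eˣ) : E) • v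

/-- The order at `c`, at the embedding `τ`, of the L-function of the twist by the representation
which contains all the irreducible characters `χ` in the set `S` with the multiplicity `d χ`. -/
noncomputable def TwistData.order (D : TwistData G E c) (τ : E →+* ℂ) (S : Set (G → ℂ))
    (d : (G → ℂ) → ℕ) : WithTop ℤ :=
  meromorphicOrderAt (fun s => ∏ᶠ χ ∈ S, D.L τ χ s ^ d χ) c

/-- The irreducible characters of `G` on which the subgroup `N` acts by the scalar `τ(λ)`. They are the
twists by `τ(λ)` of the irreducible characters of `G / N`. -/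
def OverQuotient (τ : E →+* ℂ) (N : Subgroup G) (lam : G →* Eˣ) : Set (G → ℂ) :=
  {χ ∈ Irr G | ∀ k ∈ N, χ k = χ 1 * τ ((lam k : Eˣ) : E)}

/-- all irreducible characters of `G / N` (the irreducible characters of `G` with the kernel
containing `N`) are monomial -/
def QuotientIsMonomial (N : Subgroup G) : Prop :=
  ∀ χ ∈ Irr G, (∀ k ∈ N, χ k = χ 1) →
    ∃ (U : Subgroup G) (ψ : U →* ℂˣ), χ = ind U (fun u => ((ψ u : ℂˣ) : ℂ))

section proof

variable [Finite G] {L : (E →+* ℂ) → (G → ℂ) → ℂ → ℂ} {P : (E →+* ℂ) → (G → ℂ) → ℂ}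

/-- the character of the part on which `N` acts by `λ` -/
lemma part_char (τ₀ : E →+* ℂ) (N : Subgroup G) [N.Normal] (lam : G →* Eˣ)
    {V W : Type} [AddCommGroup V] [Module E V] [FiniteDimensional E V] [AddCommGroup W] [Module E W]
    [FiniteDimensional E W] {ρ : Representation E G V} {σ : Representation E G W} {ι : W →ₗ[E] V}
    (h : IsPart N lam ρ σ ι) (g : G) :
    τ₀ (σ.character g) = twHom ((Units.map τ₀.toMonoidHom).comp lam)
      (inv N (twHom ((Units.map τ₀.toMonoidHom).comp lam)⁻¹ (fun g => τ₀ (ρ.character g)))) g := by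
  classical
  have : Fintype N := Fintype.ofFinite N
  have hcard : (Nat.card N : E) ≠ 0 := by
    intro h
    have h1 := congrArg τ₀ h
    rw [map_natCast, map_zero] at h1
    exact card_ne h1
  let e : V →ₗ[E] V := (Nat.card N : E)⁻¹ • ∑ k : N, (((lam k)⁻¹ : Eˣ) : E) • ρ (k : G)
  have he : ∀ v, e v = (Nat.card N : E)⁻¹ • ∑ k : N, (((lam k)⁻¹ : Eˣ) : E) • ρ (k : G) v := by
    intro v
    change ((Nat.card N : E)⁻¹ • ∑ k : N, (((lam k)⁻¹ : Eˣ) : E) • ρ (k : G)) v = _
    rw [LinearMap.smul_apply, LinearMap.sum_apply]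
    rfl
  have heW : ∀ v, ∀ k ∈ N, ρ k (e v) = ((lam k : Eˣ) : E) • e v := by
    intro v k hk
    rw [he, map_smul, map_sum, smul_comm]
    congr 1
    rw [← Equiv.sum_comp (Equiv.mulLeft (⟨k, hk⟩ : N)) (fun x : N =>
      (((lam x)⁻¹ : Eˣ) : E) • ρ (x : G) v), Finset.smul_sum]
    refine Finset.sum_congr rfl fun x _ => ?_
    rw [map_smul, ← Module.End.mul_apply, ← map_mul, smul_smul]
    simp only [Equiv.coe_mulLeft, Subgroup.coe_mul]
    congr 1
    rw [← Units.val_mul, map_mul, mul_inv, mul_inv_cancel_left]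
  have heid : ∀ v, (∀ k ∈ N, ρ k v = ((lam k : Eˣ) : E) • v) → e v = v := by
    intro v hv
    rw [he]
    have h1 : ∀ k : N, (((lam k)⁻¹ : Eˣ) : E) • ρ (k : G) v = v := by
      intro k
      rw [hv k k.2, smul_smul, ← Units.val_mul, inv_mul_cancel, Units.val_one, one_smul]
    rw [Finset.sum_congr rfl (fun k _ => h1 k), Finset.sum_const, Finset.card_univ,
      ← Nat.card_eq_fintype_card, ← Nat.cast_smul_eq_nsmul E, smul_smul, inv_mul_cancel₀ hcard,
      one_smul]
  let F : V →ₗ[E] V := (ρ g).comp e
  have hF : ∀ v, F v ∈ LinearMap.range ι := by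
    intro v
    obtain ⟨w, hw⟩ := (h.range (e v)).mpr (heW v)
    exact ⟨σ g w, by rw [h.comm, hw]; rfl⟩
  have h1 := LinearMap.trace_restrict_eq_of_forall_mem (LinearMap.range ι) F hF
  have h2 : F.restrict (fun x _ => hF x) = (LinearEquiv.ofInjective ι h.inj).conj (σ g) := by
    apply LinearMap.ext
    rintro ⟨_, w, rfl⟩
    have h3 : (⟨ι w, ⟨w, rfl⟩⟩ : LinearMap.range ι) = LinearEquiv.ofInjective ι h.inj w :=
      Subtype.ext rfl
    rw [LinearEquiv.conj_apply_apply]
    apply Subtype.ext
    have h4 : (LinearEquiv.ofInjective ι h.inj).symm ⟨ι w, ⟨w, rfl⟩⟩ = w := by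
      rw [h3, LinearEquiv.symm_apply_apply]
    rw [h4]
    change ρ g (e (ι w)) = ι (σ g w)
    rw [heid _ ((h.range (ι w)).mp ⟨w, rfl⟩), h.comm]
  have h3 : LinearMap.trace E V F
      = (Nat.card N : E)⁻¹ * ∑ k : N, (((lam k)⁻¹ : Eˣ) : E) * ρ.character (g * k) := by
    have h4 : F = (Nat.card N : E)⁻¹ • ∑ k : N, (((lam k)⁻¹ : Eˣ) : E) • ρ (g * (k : G)) := by
      refine LinearMap.ext fun v => ?_
      change ρ g (e v) = _
      rw [he, map_smul, map_sum, LinearMap.smul_apply, LinearMap.sum_apply]
      congr 1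
      refine Finset.sum_congr rfl fun k _ => ?_
      rw [map_smul, LinearMap.smul_apply, map_mul, Module.End.mul_apply]
    rw [h4, map_smul, map_sum, smul_eq_mul]
    congr 1
    refine Finset.sum_congr rfl fun k _ => ?_
    rw [map_smul, smul_eq_mul]
    rfl
  have h5 : σ.character g
      = (Nat.card N : E)⁻¹ * ∑ k : N, (((lam k)⁻¹ : Eˣ) : E) * ρ.character (g * k) := by
    rw [← h3, ← h1, h2, LinearMap.trace_conj']
    rfl
  rw [h5, map_mul, map_inv₀, map_natCast, map_sum]
  change _ = inv N _ g * _
  rw [inv_eq, mul_assoc, Finset.sum_mul]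
  congr 1
  refine Finset.sum_congr rfl fun k _ => ?_
  change τ₀ ((((lam k)⁻¹ : Eˣ) : E) * ρ.character (g * k)) = τ₀ (ρ.character (g * k))
    * ((((((Units.map τ₀.toMonoidHom).comp lam)⁻¹ : G →* ℂˣ) (g * k) : ℂˣ)) : ℂ)
    * ((((Units.map τ₀.toMonoidHom).comp lam) g : ℂˣ) : ℂ)
  rw [MonoidHom.inv_apply, map_mul, mul_comm, mul_assoc, ← Units.val_mul]
  congr 1
  rw [map_mul, mul_inv, mul_comm (_)⁻¹ (_)⁻¹, inv_mul_cancel_right]
  have h6 : (((Units.map τ₀.toMonoidHom).comp lam) (k : G))⁻¹
      = Units.map τ₀.toMonoidHom ((lam k)⁻¹) := (map_inv (Units.map τ₀.toMonoidHom) (lam k)).symm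
  rw [h6]
  rfl

/-- twisting back -/
lemma tw_back (lam : G →* ℂˣ) (f : G → ℂ) : twHom lam (twHom lam⁻¹ f) = f := by
  funext g
  change f g * ((lam⁻¹ g : ℂˣ) : ℂ) * ((lam g : ℂˣ) : ℂ) = f g
  rw [MonoidHom.inv_apply, mul_assoc, ← Units.val_mul, inv_mul_cancel, Units.val_one, mul_one]

lemma virt_tw (lam : G →* ℂˣ) {f : G → ℂ} (hb : f ∈ AddSubmonoid.closure (Irr G)) :
    Virt (twHom lam f) := by
  have h3 : AddSubmonoid.closure (Irr G) ≤ ((AddSubgroup.closure (Irr G)).comap
      (twHom lam)).toAddSubmonoid := by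
    rw [AddSubmonoid.closure_le]
    intro χ hχ
    exact AddSubgroup.subset_closure (irr_twist hχ _)
  exact h3 hb

/-- the difference of the characters of `ρ` and of its old part -/
theorem new_part {ζ : E} (hζ : IsPrimitiveRoot ζ (Monoid.exponent G))
    (hL : ∀ τ, ∀ χ ∈ Irr G, MeromorphicAt (L τ χ) c ∧ meromorphicOrderAt (L τ χ) c ≠ ⊤)
    (hP : ∀ τ, ∀ χ ∈ Irr G, P τ χ ≠ 0)
    (hmon : ∀ (U : Subgroup G) (ψ : U →* Eˣ), Tame U →
      Deligne L P c (ind U (fun u => ((ψ u : Eˣ) : E)))) (τ₀ : E →+* ℂ)
    (N : Subgroup G) [N.Normal] (lam : G →* Eˣ)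
    (hK : ∀ k ∈ N, (theta (ords (L τ₀) c) : G → ℂ) k
      = ((((Units.map τ₀.toMonoidHom).comp lam) k : ℂˣ) : ℂ) * (theta (ords (L τ₀) c) : G → ℂ) 1)
    {V W : Type} [AddCommGroup V] [Module E V] [FiniteDimensional E V] [AddCommGroup W] [Module E W]
    [FiniteDimensional E W] {ρ : Representation E G V} {σ : Representation E G W} {ι : W →ₗ[E] V}
    (h : IsPart N lam ρ σ ι) :
    ∃ (f : G → E) (e : E), e ≠ 0 ∧ ρ.character = σ.character + f ∧ DelZ L P c f e := by
  set lam₀ : G →* ℂˣ := (Units.map τ₀.toMonoidHom).comp lam with hlam₀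
  let f' : G → ℂ := twHom lam₀⁻¹ (fun g => τ₀ (ρ.character g))
  have hf' : Virt f' := virt_tw lam₀⁻¹ (base_change τ₀ ρ)
  have hnew : f' - inv N f' ∈ NewA N := by
    refine relative_brauer N (sub_mem (S := AddSubgroup (G → ℂ)) hf' (virt_inv N hf')) ?_
    have h1 : inv N (f' - inv N f') = inv N f' - inv N (inv N f') := map_sub (invHom N) _ _
    rw [h1, inv_of_const N (f := inv N f') (fun g k hk => inv_mul_mem N f' g hk), sub_self]
  have h1 := new_twistT N lam₀ hnew
  rw [AddSubgroup.mem_comap] at h1
  obtain ⟨fs, es, hs1, he0, hs2⟩ := new_unitT hζ hL hP hmon τ₀ hK h1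
  refine ⟨fs, es, he0, ?_, hs2⟩
  funext g
  apply τ₀.injective
  rw [Pi.add_apply, map_add, hs1, part_char τ₀ N lam h]
  change _ = inv N f' g * _ + (f' g - inv N f' g) * _
  rw [← add_mul, add_sub_cancel]
  exact (congrFun (tw_back lam₀ (fun g => τ₀ (ρ.character g))) g).symm

/-- the quotient form from the integral form for the difference -/
lemma quot_of_delZ (hL : ∀ τ, ∀ χ ∈ Irr G, MeromorphicAt (L τ χ) c ∧ meromorphicOrderAt (L τ χ) c ≠ ⊤)
    (hP : ∀ τ, ∀ χ ∈ Irr G, P τ χ ≠ 0) {f f' fs : G → E} (hf : f = f' + fs) {e : E}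
    (he : DelZ L P c fs e) (τ : E →+* ℂ) (m m' : (G → ℂ) → ℕ)
    (hm : IsDecomp (fun g => τ (f g)) m) (hm' : IsDecomp (fun g => τ (f' g)) m') :
    Tendsto (fun s => (∏ᶠ χ ∈ Irr G, L τ χ s ^ m χ) / ∏ᶠ χ ∈ Irr G, L τ χ s ^ m' χ) (𝓝[≠] c)
      (𝓝 (τ e * ((∏ᶠ χ ∈ Irr G, P τ χ ^ m χ) / ∏ᶠ χ ∈ Irr G, P τ χ ^ m' χ))) := by
  have hmult : ∀ χ ∈ irrF G, mult (fun g => τ (fs g)) χ = (m χ : ℤ) - m' χ := by
    intro χ hχ
    apply mult_of_pr
    have h1 : (fun g => τ (f g)) = (fun g => τ (f' g)) + fun g => τ (fs g) := by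
      rw [hf]
      funext g
      rw [Pi.add_apply, Pi.add_apply, map_add]
    have h2 := hm.pr (mem_irrF.mp hχ)
    rw [h1, pr_add, hm'.pr (mem_irrF.mp hχ)] at h2
    push_cast
    linear_combination h2
  have h1 := he.2 τ
  have h2 : (∏ᶠ χ ∈ Irr G, P τ χ ^ m χ) / ∏ᶠ χ ∈ Irr G, P τ χ ^ m' χ
      = ∏ χ ∈ irrF G, P τ χ ^ mult (fun g => τ (fs g)) χ := by
    rw [finprod_irr (fun χ => P τ χ ^ m χ), finprod_irr (fun χ => P τ χ ^ m' χ),
      ← Finset.prod_div_distrib]
    exact Finset.prod_congr rfl fun χ hχ => by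
      rw [hmult χ hχ, zpow_sub₀ (hP τ χ (mem_irrF.mp hχ)), zpow_natCast, zpow_natCast]
  rw [h2]
  refine h1.congr' ?_
  filter_upwards [ev_ne hL τ] with s hs
  rw [finprod_irr (fun χ => L τ χ s ^ m χ), finprod_irr (fun χ => L τ χ s ^ m' χ),
    ← Finset.prod_div_distrib]
  exact Finset.prod_congr rfl fun χ hχ => by
    rw [hmult χ hχ, zpow_sub₀ (hs χ hχ), zpow_natCast, zpow_natCast]

/-- the projection of a character to the twists of characters of a monomial quotient is a sum of
monomial characters -/
lemma old_mono (N : Subgroup G) [N.Normal] (hM : QuotientIsMonomial N) (lam : G →* ℂˣ) {f : G → ℂ}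
    (hf : f ∈ AddSubmonoid.closure (Irr G)) :
    twHom lam (inv N (twHom lam⁻¹ f)) ∈ MonPA G := by
  induction hf using AddSubmonoid.closure_induction with
  | zero =>
    rw [map_zero, ← invHom_apply, map_zero, map_zero]
    exact zero_mem _
  | add a b _ _ ha hb =>
    rw [map_add, ← invHom_apply, map_add, map_add]
    exact add_mem ha hb
  | mem χ hχ =>
    have hχ' : twHom lam⁻¹ χ ∈ Irr G := irr_twist hχ lam⁻¹
    rcases irr_inv N hχ' with h | ⟨-, h⟩
    · rw [inv_of_const N h]
      obtain ⟨U, ψ, hψ⟩ := hM _ hχ' (fun k hk => by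
        have := h 1 k hk
        rwa [one_mul] at this)
      rw [hψ]
      apply AddSubmonoid.subset_closure
      refine ⟨U, ψ * lam.comp U.subtype, ?_⟩
      funext g
      change ind U (fun h => ((ψ h : ℂˣ) : ℂ)) g * ((lam g : ℂˣ) : ℂ) = _
      rw [← ind_mul U (fun h => ((ψ h : ℂˣ) : ℂ)) (F := fun g => ((lam g : ℂˣ) : ℂ))
        (lin_conj lam) g]
      rfl
    · rw [h, map_zero]
      exact zero_mem _

/-- representations over a monomial quotient -/
theorem old_part {ζ : E} (hζ : IsPrimitiveRoot ζ (Monoid.exponent G))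
    (hL : ∀ τ, ∀ χ ∈ Irr G, MeromorphicAt (L τ χ) c ∧ meromorphicOrderAt (L τ χ) c ≠ ⊤)
    (hP : ∀ τ, ∀ χ ∈ Irr G, P τ χ ≠ 0)
    (hmon : ∀ (U : Subgroup G) (ψ : U →* Eˣ),
      Deligne L P c (ind U (fun u => ((ψ u : Eˣ) : E)))) (τ₀ : E →+* ℂ)
    (N : Subgroup G) [N.Normal] (hM : QuotientIsMonomial N) (lam : G →* Eˣ)
    {W : Type} [AddCommGroup W] [Module E W] [FiniteDimensional E W] (σ : Representation E G W)
    (hσ : ∀ k ∈ N, ∀ w, σ k w = ((lam k : Eˣ) : E) • w) : Deligne L P c σ.character := by
  classical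
  have : Fintype N := Fintype.ofFinite N
  set lam₀ : G →* ℂˣ := (Units.map τ₀.toMonoidHom).comp lam with hlam₀
  have h1 := old_mono N hM lam₀ (base_change τ₀ σ)
  have h2 : twHom lam₀ (inv N (twHom lam₀⁻¹ (fun g => τ₀ (σ.character g))))
      = fun g => τ₀ (σ.character g) := by
    rw [inv_of_const N, tw_back]
    intro g k hk
    have h3 : σ (g * k) = ((lam k : Eˣ) : E) • σ g := by
      refine LinearMap.ext fun w => ?_
      rw [map_mul, Module.End.mul_apply, hσ k hk w, map_smul, LinearMap.smul_apply]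
    have h4 : σ.character (g * k) = ((lam k : Eˣ) : E) * σ.character g := by
      change LinearMap.trace E W (σ (g * k)) = _
      rw [h3, map_smul, smul_eq_mul]
      rfl
    change τ₀ (σ.character (g * k)) * (((lam₀⁻¹) (g * k) : ℂˣ) : ℂ)
      = τ₀ (σ.character g) * (((lam₀⁻¹) g : ℂˣ) : ℂ)
    rw [h4, map_mul, map_mul lam₀⁻¹, Units.val_mul]
    have h5 : τ₀ ((lam k : Eˣ) : E) * (((lam₀⁻¹) k : ℂˣ) : ℂ) = 1 := by
      change ((lam₀ k : ℂˣ) : ℂ) * (((lam₀⁻¹) k : ℂˣ) : ℂ) = 1
      rw [MonoidHom.inv_apply, ← Units.val_mul, mul_inv_cancel, Units.val_one]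
    linear_combination (τ₀ (σ.character g) * (((lam₀⁻¹) g : ℂˣ) : ℂ)) * h5
  rw [h2] at h1
  obtain ⟨fa, ea, ha1, ha2⟩ := monA_del hζ hL hP hmon τ₀ h1
  have h6 : σ.character = fa := by
    funext g
    exact τ₀.injective (ha1 g).symm
  rw [h6]
  exact ha2.deligne

end proof

/-- **Deligne's conjecture and the field of the zeros.** Suppose that the conjecture holds at `c` for
the twists by the characters of `G` induced from linear characters of subgroups which are
hyperelementary or nilpotent. Let `d χ = χ(1)`, so that `D.order τ (Irr G) d` is the order at `c` of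
the L-function of the base change of `M` to `K`. Let `N` be a normal subgroup of `G`, with the field
`F` of fixed points, and `λ` a character of `G`, such that for one embedding `τ₀` this order is not
larger than the order of the L-function of the base change to `F` of the twist of `M` by `λ`.
Then for every representation `ρ` of `G` over `E` and its part `σ` on which `N` acts by `λ` there is `e ≠ 0`
in `E` such that `L(M ⊗ ρ, s) / L(M ⊗ σ, s)` has at `c` the value `τ(e)` times the quotient of the periods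
for all embeddings `τ`. If all irreducible characters of `G / N` are monomial and the conjecture holds
for the twists by all monomial characters of `G`, then it holds for the twists by all
representations of `G` over `E`. -/
theorem result (G : Type) [Group G] [Finite G] (E : Type) [Field E] [NumberField E] (ζ : E)
    (hζ : IsPrimitiveRoot ζ (Monoid.exponent G)) (c : ℂ) (D : TwistData G E c)
    (hmon : ∀ (U : Subgroup G) (ψ : U →* Eˣ), Hyper U ∨ Group.IsNilpotent U →
      D.Holds (ind U (fun u => ((ψ u : Eˣ) : E))))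
    (τ₀ : E →+* ℂ) (d : (G → ℂ) → ℕ) (hd : ∀ χ ∈ Irr G, χ 1 = d χ)
    (N : Subgroup G) [N.Normal] (lam : G →* Eˣ)
    (hz : D.order τ₀ (Irr G) d ≤ D.order τ₀ (OverQuotient τ₀ N lam) d)
    (V : Type) [AddCommGroup V] [Module E V] [FiniteDimensional E V] (ρ : Representation E G V) :
    (∀ (W : Type) [AddCommGroup W] [Module E W] [FiniteDimensional E W]
        (σ : Representation E G W) (ι : W →ₗ[E] V), IsPart N lam ρ σ ι →
        D.QuotientHolds ρ.character σ.character) ∧
    (QuotientIsMonomial N →
      (∀ (U : Subgroup G) (ψ : U →* Eˣ), D.Holds (ind U (fun u => ((ψ u : Eˣ) : E)))) →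
      D.Holds ρ.character) := by
  have hmon' : ∀ (U : Subgroup G) (ψ : U →* Eˣ), Hyper U →
      Deligne D.L D.P c (ind U (fun u => ((ψ u : Eˣ) : E))) := fun U ψ hU => hmon U ψ (Or.inl hU)
  have hK := zeros_old hζ D.mero hmon' τ₀ hd N ((Units.map τ₀.toMonoidHom).comp lam) hz
  refine ⟨?_, ?_⟩
  · intro W _ _ _ σ ι h
    obtain ⟨f, e, he0, hf, he⟩ := new_part hζ D.mero D.period hmon τ₀ N lam hK h
    exact ⟨e, he0, fun τ m m' hm hm' => quot_of_delZ D.mero D.period hf he τ m m' hm hm'⟩
  · intro hM hall
    exact main_grow' hζ D.mero D.period hmon τ₀ N lam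
      (fun W _ _ _ σ hσ => old_part hζ D.mero D.period hall τ₀ N hM lam σ hσ) hK ρ

end Pool.Agent.Results.MP_100fe7_nt.FieldOfTheZeros
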