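import Mathlib
import Pool.Agent.N28.DJ.NewConc

/-!
# Deligne's conjecture for Artin twists: only the zeros in primitive extensions matter

Let `M` be a pure motive over `ℚ` with coefficients in the number field `E`, critical at the integer
`c`, and let `K/ℚ` be a Galois extension with an arbitrary finite group `G`. We assume that `E`
contains the roots of unity of order the exponent of `G` (one can always enlarge `E`).

* `L τ χ`, for an embedding `τ` of `E` and an irreducible complex character `χ` of `G`, is the component
  at `τ` of the L-function of the twist of `M` by the Artin motive with the character `χ` at `τ`;
* `P τ χ` is the component at `τ` of its period (with the power of `2πi`).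

L-functions and periods of direct sums are products. The subgroups `U` of `G` are the subfields `K^U`
of `K`, and `ord U` is the order at `c` of the L-function of `M` over `K^U` (for one fixed embedding).

A finite group is called `Primitive` if it is isomorphic to a primitive linear group: it has a faithful
irreducible complex representation of degree at least two which is not induced from a proper
subgroup. For `A ≤ H ≤ G`, with `A` normal in `H`, the group `H / A` is the Galois group of the extension
`K^A / K^H`. The theorem says that Deligne's conjecture for the twists by the monomial characters
`Ind_U^G ψ` (that is, for the twists of the base change of `M` to the subfields of `K` by characters of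
finite order) implies the conjecture for the twists of `M` by all Artin representations of `G`, if no
primitive extension `K^A / K^H` has a new zero: the order of `L(M/K^A, s)` at `c` is the order of
`L(M/F, s)` for some field `K^H ≤ F < K^A`, normal over `K^H`.

If there are no zeros at all this is the theorem of Brauer. If all zeros come from a subfield `F` of
`K` which is Galois over `ℚ`, the condition only concerns the primitive extensions inside `F`. The
condition bounds neither the number of the zeros nor the group: zeros may have any multiplicity in
abelian, nilpotent or supersolvable extensions inside `K` (no section of a supersolvable group is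
primitive). There is no assumption on the holomorphy of the L-functions of the irreducible twists.
For the group `SL_2(3)`, which is primitive, and new zeros, the conclusion does not follow formally:
if the L-functions of the twists by the three faithful irreducible characters have the orders 1, 0, 0,
then the conjecture for the monomial characters says nothing on the two nonzero L-values besides
their product.

The proof: the orders of the L-functions are the multiplicities of a Heilbronn function `θ` of `G`. By
induction each irreducible character of `G` is induced from a linear character or from a character
`ψ` of a subgroup `H` which is a faithful primitive character of some `H / A`. The part of `θ` in `H / A` is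
invariant under `B / A`, and `ψ` is a combination of characters induced from linear characters which
are nontrivial on `B / A`, by a relative form of Brauer's theorem; their L-functions do not vanish.
-/

set_option autoImplicit false

open Pool.Agent.H302R2 Pool.Agent.H541R3.ART Pool.Agent.R389 Filter Topology

namespace Pool.Agent.Results.MP_100fe7_nt.PrimitiveExtensions

/-- The L-functions and the periods at `c` of the twists of a motive by the irreducible characters
of the finite group `G`, for the embeddings `τ` of the field `E` of coefficients. -/
structure TwistData (G : Type) [Group G] (E : Type) [Field E] (c : ℂ) where
  /-- the component at `τ` of the L-function of the twist by `χ` -/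
  L : (E →+* ℂ) → (G → ℂ) → ℂ → ℂ
  /-- the component at `τ` of the period of the twist by `χ` -/
  P : (E →+* ℂ) → (G → ℂ) → ℂ
  /-- the L-functions are meromorphic at `c` and not identically zero near `c` -/
  mero : ∀ τ, ∀ χ ∈ Irr G, MeromorphicAt (L τ χ) c ∧ meromorphicOrderAt (L τ χ) c ≠ ⊤
  /-- the periods are not zero -/
  period : ∀ τ, ∀ χ ∈ Irr G, P τ χ ≠ 0

variable {G : Type} [Group G] {E : Type} [Field E] {c : ℂ}

/-- Deligne's conjecture for the twist by the representation over `E` with the character `f`. -/
def TwistData.Holds (D : TwistData G E c) (f : G → E) : Prop := Deligne D.L D.P c f

/-- the L-function, at the embedding `τ`, of the twist by the complex representation which contains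
`m χ` times the irreducible representation with the character `χ` -/
noncomputable def TwistData.lfun (D : TwistData G E c) (τ : E →+* ℂ) (m : (G → ℂ) → ℕ) (s : ℂ) :
    ℂ :=
  ∏ᶠ χ ∈ Irr G, D.L τ χ s ^ m χ

/-- The character of the permutation representation of `G` on the cosets of `U`. The twist by it is
the base change of the motive to the fixed field of `U`. -/
noncomputable def perm (U : Subgroup G) : G → ℂ := ind U (fun _ => (1 : ℂ))

/-- `k` is the order at `c` of the L-function, at the embedding `τ`, of the twist by a complex
representation with the character `f`. -/
def TwistData.HasOrder (D : TwistData G E c) (τ : E →+* ℂ) (f : G → ℂ) (k : ℤ) : Prop :=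
  ∃ m : (G → ℂ) → ℕ, IsDecomp f m ∧ meromorphicOrderAt (D.lfun τ m) c = k

/-- `X` has a faithful irreducible complex representation of degree at least two which is not induced
from a proper subgroup. -/
def Primitive (X : Type) [Group X] : Prop :=
  ∃ ψ ∈ Irr X, ψ 1 ≠ 1 ∧ (∀ x, ψ x = ψ 1 → x = 1) ∧
    ∀ (U : Subgroup X) (φ : U → ℂ), U ≠ ⊤ → φ ∈ Irr U → ψ ≠ ind U φ

/-- **Deligne's conjecture for Artin twists, arbitrary groups.** Suppose that the conjecture holds at
`c` for the twists by all monomial characters `Ind_U^G ψ` of the finite group `G`. Let `ord U` be the
order at `c` of the L-function of the base change to the fixed field of `U`, for one embedding. Suppose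
that for all subgroups `A ≤ H` with `A` normal in `H` and `H / A` a primitive linear group there is a
subgroup `B` with `A < B ≤ H`, normal in `H`, such that `ord B = ord A`. Then the conjecture holds at `c`
for the twists by all representations of `G` over `E`. -/
theorem result (G : Type) [Group G] [Finite G] (E : Type) [Field E] (ζ : E)
    (hζ : IsPrimitiveRoot ζ (Monoid.exponent G)) (c : ℂ) (D : TwistData G E c)
    (hmon : ∀ (U : Subgroup G) (ψ : U →* Eˣ), D.Holds (ind U (fun u => ((ψ u : Eˣ) : E))))
    (τ₀ : E →+* ℂ) (ord : Subgroup G → ℤ)
    (hord : ∀ U : Subgroup G, D.HasOrder τ₀ (perm U) (ord U))
    (hnew : ∀ A H : Subgroup G, A ≤ H → ∀ [(A.subgroupOf H).Normal],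
      Primitive (H ⧸ A.subgroupOf H) →
        ∃ B : Subgroup G, A < B ∧ B ≤ H ∧ (B.subgroupOf H).Normal ∧ ord B = ord A)
    (V : Type) [AddCommGroup V] [Module E V] [FiniteDimensional E V] (ρ : Representation E G V) :
    D.Holds ρ.character :=
  Pool.Agent.N28.DL.main_newsec hζ D.mero D.period hmon τ₀ ord hord
    (Pool.Agent.N28.DL.conc hnew) ρ

end Pool.Agent.Results.MP_100fe7_nt.PrimitiveExtensions
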