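import Mathlib
import Pool.Agent.R389.TwoMain

/-!
# Deligne's conjecture for all Artin twists when the order of vanishing is at most two

Let `M` be a pure motive over `ℚ` with coefficients in the number field `E`, let `c` be a critical
integer of `M`, and let `K/ℚ` be a Galois extension with the group `G`; the field `E` contains the
roots of unity of order the exponent of `G`, so that every irreducible character `χ` of `G` is the
character of a representation over `E` (Brauer). Fix an embedding `τ` of `E`.

* `L τ χ` is the component at `τ` of the L-function of the motive `M ⊗ χ'`, where `χ'` is the Artin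
  motive over `E` with `τ ∘ χ' = χ`; it is meromorphic at `c` and not identically zero.
* `P τ χ` is the component at `τ` of `(2 π i) ^ (c n) c⁺(M ⊗ χ')`, the period of the conjecture.

L-functions and periods of direct sums are products. So `Deligne L P c f` (defined in
`Pool/Agent/R389/Defs.lean`) is Deligne's conjecture for the twist `M ⊗ ρ`, where `ρ` is the
representation with the character `f : G → E`: there is `e ∈ E` such that for all embeddings `τ` the
L-function of `M ⊗ ρ` has at `c` the value `τ(e)` times the period; in particular it has no pole.

The twists by the monomial characters `Ind_U^G ψ` are the twists by Hecke characters of finite order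
of the base change of `M` to the subfields `K^U`. For these the conjecture is a theorem if `M` is
the motive of an algebraic Hecke character, or the motive of an elliptic curve over `ℚ` and `K` is
totally real. The conjecture for `M ⊗ ρ` follows from the one for monomial twists by Brauer's
theorem if no zeros are present, but not in general, since Brauer's theorem needs quotients of
L-values, and these may be zero. Here we prove this implication when `L(M/K, s)` has at most a
double zero at `c`.

The proof is that of the starting library file `Pool/Agent/R389/TwoMain.lean`.
-/

set_option autoImplicit false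

open Pool.Agent.H302R2 Pool.Agent.H541R3.ART Pool.Agent.R389

namespace Pool.Agent.Results.MP_100fe7_nt.TwistsOrderTwo

/-- The L-functions and the periods at `c` of the twists of a motive by the irreducible characters of
the finite group `G`, for the embeddings `τ` of the coefficient field `E`. -/
structure TwistData (G : Type) [Group G] (E : Type) [Field E] (c : ℂ) where
  /-- the L-function of the twist by `χ` -/
  L : (E →+* ℂ) → (G → ℂ) → ℂ → ℂ
  /-- the period of the twist by `χ` -/
  P : (E →+* ℂ) → (G → ℂ) → ℂ
  /-- the L-functions are meromorphic at `c` and not identically zero near `c` -/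
  mero : ∀ τ, ∀ χ ∈ Irr G, MeromorphicAt (L τ χ) c ∧ meromorphicOrderAt (L τ χ) c ≠ ⊤
  /-- the periods are not zero -/
  period : ∀ τ, ∀ χ ∈ Irr G, P τ χ ≠ 0

variable {G : Type} [Group G] {E : Type} [Field E] {c : ℂ}

/-- Deligne's conjecture for the twist by the representation with the character `f : G → E`. -/
def TwistData.Holds (D : TwistData G E c) (f : G → E) : Prop := Deligne D.L D.P c f

/-- `k` is the order at `c` of the L-function of the twist by a complex representation with the
character `f`, at the embedding `τ`. -/
def TwistData.HasOrder (D : TwistData G E c) (τ : E →+* ℂ) (f : G → ℂ) (k : WithTop ℤ) : Prop :=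
  ∃ m : (G → ℂ) → ℕ, IsDecomp f m ∧
    meromorphicOrderAt (fun s => ∏ᶠ χ ∈ Irr G, D.L τ χ s ^ m χ) c = k

/-- The character of the regular representation of `G`. The twist by it is the base change of the
motive to the field `K`. -/
noncomputable def regular (g : G) : ℂ := ind (⊥ : Subgroup G) (fun _ => (1 : ℂ)) g

open Pool.Agent.W446.AS in
/-- The regular representation contains every irreducible representation with its degree as the
multiplicity. -/
theorem deg_of_regular {G : Type} [Group G] [Finite G] {m : (G → ℂ) → ℕ}
    (hm : IsDecomp (regular : G → ℂ) m) : ∀ χ ∈ Irr G, χ 1 = m χ := by
  classical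
  intro χ hχ
  have h1 := hm.pr hχ
  rw [← h1]
  have h2 : (regular : G → ℂ) = ind (⊥ : Subgroup G) (fun _ => (1 : ℂ)) := rfl
  rw [h2, frob _ _ (Irr.conj hχ), pr]
  have h3 : Nat.card (⊥ : Subgroup G) = 1 := Subgroup.card_bot
  rw [h3, finsum_unique]
  have h4 : (((default : (⊥ : Subgroup G))⁻¹ : (⊥ : Subgroup G)) : G) = 1 :=
    Subgroup.mem_bot.1 ((default : (⊥ : Subgroup G))⁻¹).2
  simp only [h4]
  norm_num

/-- **Deligne's conjecture for Artin twists, order at most two.** Suppose that the conjecture holds
at `c` for the twists by all monomial characters `Ind_U^G ψ` of `G`. Suppose that at one embedding `τ₀`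
of the coefficient field the L-function of the base change to `K` has at most a double zero at `c`,
and that its factors which belong to the quaternion sections of `G` have no simple zero at `c`: if
`H` is a subgroup with a homomorphism `q` onto the quaternion group of order eight, then the order at
`c` of the L-function of the twist by the character induced from the inflation of the
two-dimensional irreducible character is not one. (There are no such sections, for example, if the
Sylow 2-subgroups of `G` are abelian, dihedral or of order less than eight.) Then the conjecture holds
at `c` for the twists by all representations of `G` over `E`. -/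
theorem result (G : Type) [Group G] [Finite G] (E : Type) [Field E] [NumberField E] (ζ : E)
    (hζ : IsPrimitiveRoot ζ (Monoid.exponent G)) (c : ℂ) (D : TwistData G E c)
    (hmon : ∀ (U : Subgroup G) (ψ : U →* Eˣ), D.Holds (ind U (fun u => ((ψ u : Eˣ) : E))))
    (τ₀ : E →+* ℂ) (hz : ∃ k ≤ 2, D.HasOrder τ₀ regular k)
    (hquat : ∀ (H : Subgroup G) (q : H →* QuaternionGroup 2), Function.Surjective q →
      ¬ D.HasOrder τ₀ (ind H (fun h => quatChar (q h))) 1)
    (V : Type) [AddCommGroup V] [Module E V] [FiniteDimensional E V] (ρ : Representation E G V) :
    D.Holds ρ.character := by
  obtain ⟨k, hk, m, hm, hmk⟩ := hz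
  refine main_two hζ D.mero D.period hmon τ₀ (deg_of_regular hm) (hmk.le.trans hk) ?_ ρ
  intro H q hq m' hm' h1
  exact hquat H q hq ⟨m', hm', h1⟩

end Pool.Agent.Results.MP_100fe7_nt.TwistsOrderTwo
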