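import Mathlib
import Pool.Agent.N28.DL.MainChain

/-!
# Deligne's conjecture for all Artin twists by solvable groups when there are few new zeros

Let `M` be a pure motive over `ℚ` with coefficients in the number field `E`, let `c` be a critical
integer of `M`, and let `K/ℚ` be a Galois extension with the group `G`; the field `E` contains the
roots of unity of order the exponent of `G`, so that every irreducible character `χ` of `G` is the
character of a representation over `E` (Brauer). Fix an embedding `τ` of `E`.

* `L τ χ` is the component at `τ` of the L-function of the motive `M ⊗ χ'`, where `χ'` is the Artin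
  motive over `E` with `τ ∘ χ' = χ`; it is meromorphic at `c` and not identically zero.
* `P τ χ` is the component at `τ` of `(2 π i) ^ (c n) c⁺(M ⊗ χ')`, the period of the conjecture.

L-functions and periods of direct sums are products. So `Deligne L P c f` (defined in
`Pool/Agent/R389/Defs.lean`) is Deligne's conjecture for the twist `M ⊗ ρ`, where `ρ` is the
representation with the character `f : G → E`: there is `e ∈ E` such that for all embeddings `τ` the
L-function of `M ⊗ ρ` has at `c` the value `τ(e)` times the period; in particular it has no pole.

The twists by the monomial characters `Ind_U^G ψ` are the twists by Hecke characters of finite order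
of the base change of `M` to the subfields `K^U`. Brauer's theorem reduces the conjecture for
`M ⊗ ρ` to these twists only if no zeros are present, since it needs quotients of L-values. Here we
treat solvable extensions `K` of any degree in which the L-function may have arbitrarily many zeros,
as long as few of them are new.

Let `G = N 0 ≥ N 1 ≥ … ≥ N l = 1` be a series of normal subgroups with abelian quotients, let
`F k` be the fixed field of `N k`, and let `r k p` be the difference of the orders at `c` of the
L-functions of `M` over `K` and over the largest Galois subextension `K(k, p)` of `K/ℚ` over `F k`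
such that the Sylow `p`-subgroups of its Galois group over `F k` are abelian. We assume that
`r k p < p ^ n` whenever `p` is a prime, `n ≥ 1`, the layer `N k / N (k + 1)` has at least `p ^ (2 n)`
elements of order dividing `p`, and a prime divisor `q ≠ p` of `(G : N k)` divides `p ^ i - 1` for some
`1 ≤ i ≤ 2 n`. For example, this holds for every solvable group `G` if `L(M/K, s)` has at most one zero
more than `L(M/K', s)`, where `K'` is the largest metabelian subextension; it holds for the derived
series if, for all primes `p ≤ ord L(M/K, s)`, the Sylow `p`-subgroups of the commutator subgroup of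
`G` are abelian.

The proof: let `θ` be the class function in which an irreducible character has the order at `c` of its
L-function as multiplicity. Each irreducible character is monomial or a combination of monomial
characters orthogonal to `θ`, whose L-values can be inverted. This is shown by Clifford theory and
induction; in the primitive case there is a critical subgroup `E` in some layer, whose characters of
degree `p ^ n` are too large to occur in the part of `θ` which is not invariant under the commutators
of the `p`-subgroups of `N k`, and this part has nonnegative multiplicities (Uchida and van der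
Waall). Hence `θ` is invariant under `[E, E]`, and a relative form of Brauer's theorem applies.
-/

set_option autoImplicit false

open Pool.Agent.H302R2 Pool.Agent.H541R3.ART Pool.Agent.R389

namespace Pool.Agent.Results.MP_100fe7_nt.TwistsSolvable

/-- The L-functions and the periods at `c` of the twists of a motive by the irreducible characters of
the finite group `G`, for the embeddings `τ` of the coefficient field `E`. -/
structure TwistData (G : Type) [Group G] (E : Type) [Field E] (c : ℂ) where
  /-- the L-function of the twist by `χ` -/
  L : (E →+* ℂ) → (G → ℂ) → ℂ → ℂ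
  /-- the period of the twist by `χ` -/
  P : (E →+* ℂ) → (G → ℂ) → ℂ
  /-- the L-functions are meromorphic at `c` and not identically zero near `c` -/
  mero : ∀ τ, ∀ χ ∈ Irr G, MeromorphicAt (L τ χ) c ∧ meromorphicOrderAt (L τ χ) c ≠ ⊤
  /-- the periods are not zero -/
  period : ∀ τ, ∀ χ ∈ Irr G, P τ χ ≠ 0

variable {G : Type} [Group G] {E : Type} [Field E] {c : ℂ}

/-- Deligne's conjecture for the twist by the representation with the character `f : G → E`. -/
def TwistData.Holds (D : TwistData G E c) (f : G → E) : Prop := Deligne D.L D.P c f

/-- `k` is the order at `c` of the L-function of the twist by a complex representation with the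
character `f`, at the embedding `τ`. -/
def TwistData.HasOrder (D : TwistData G E c) (τ : E →+* ℂ) (f : G → ℂ) (k : ℤ) : Prop :=
  ∃ m : (G → ℂ) → ℕ, IsDecomp f m ∧
    meromorphicOrderAt (fun s => ∏ᶠ χ ∈ Irr G, D.L τ χ s ^ m χ) c = k

/-- The character of the permutation representation of `G` on the cosets of `U`. The twist by it is
the base change of the motive to the fixed field of `U`. -/
noncomputable def perm (U : Subgroup G) : G → ℂ := ind U (fun _ => (1 : ℂ))

/-- The subgroup generated by the commutator subgroups of the `p`-subgroups of `N`. If `N` is normal
in `G`, it is the smallest normal subgroup `R ≤ N` of `G` such that the Sylow `p`-subgroups of `N / R`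
are abelian. -/
def pDerived (p : ℕ) (N : Subgroup G) : Subgroup G :=
  ⨆ Q : {Q : Subgroup G // Q ≤ N ∧ IsPGroup p Q}, ⁅(Q : Subgroup G), (Q : Subgroup G)⁆

/-- We have `r p < p ^ n` whenever `p` is a prime, `n ≥ 1`, the group `N / N'` has at least
`p ^ (2 n)` elements of order dividing `p`, and there are a prime divisor `q ≠ p` of the index of `N`
and `1 ≤ i ≤ 2 n` such that `q` divides `p ^ i - 1`. -/
def Few (N N' : Subgroup G) (r : ℕ → ℕ) : Prop :=
  ∀ p n : ℕ, p.Prime → 0 < n →
    p ^ (2 * n) * Nat.card N' ≤ Nat.card {x : G // x ∈ N ∧ x ^ p ∈ N'} →
    (∃ q i : ℕ, q.Prime ∧ q ≠ p ∧ q ∣ N.index ∧ 0 < i ∧ i ≤ 2 * n ∧ q ∣ p ^ i - 1) → r p < p ^ n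

open Pool.Agent.W446.AS in
/-- The regular representation contains every irreducible representation with its degree as the
multiplicity. -/
theorem deg_of_regular {G : Type} [Group G] [Finite G] {m : (G → ℂ) → ℕ}
    (hm : IsDecomp (perm (⊥ : Subgroup G)) m) : ∀ χ ∈ Irr G, χ 1 = m χ := by
  classical
  intro χ hχ
  have h1 := hm.pr hχ
  rw [← h1]
  have h2 : (perm (⊥ : Subgroup G) : G → ℂ) = ind (⊥ : Subgroup G) (fun _ => (1 : ℂ)) := rfl
  rw [h2, frob _ _ (Irr.conj hχ), pr]
  have h3 : Nat.card (⊥ : Subgroup G) = 1 := Subgroup.card_bot
  rw [h3, finsum_unique]
  have h4 : (((default : (⊥ : Subgroup G))⁻¹ : (⊥ : Subgroup G)) : G) = 1 :=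
    Subgroup.mem_bot.1 ((default : (⊥ : Subgroup G))⁻¹).2
  simp only [h4]
  norm_num

/-- **Deligne's conjecture for Artin twists by solvable groups, few new zeros.** Suppose that the
conjecture holds at `c` for the twists by all monomial characters `Ind_U^G ψ` of `G`. Let
`G = N 0 ≥ … ≥ N l = 1` be normal subgroups of `G` with abelian quotients `N k / N (k + 1)`. At one
embedding `τ₀` of the coefficient field let `a` and `b k p` be the orders at `c` of the L-functions of
the base changes of the motive to `K` and to the fixed field of `pDerived p (N k)`, and let
`a ≤ b k p + r k p`, where `r k p < p ^ n` for all `p`, `n` as in the definition of `Few`. Then the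
conjecture holds at `c` for the twists by all representations of `G` over `E`. -/
theorem result (G : Type) [Group G] [Finite G] (E : Type) [Field E] [NumberField E] (ζ : E)
    (hζ : IsPrimitiveRoot ζ (Monoid.exponent G)) (c : ℂ) (D : TwistData G E c)
    (hmon : ∀ (U : Subgroup G) (ψ : U →* Eˣ), D.Holds (ind U (fun u => ((ψ u : Eˣ) : E))))
    (l : ℕ) (N : ℕ → Subgroup G) (hnormal : ∀ k, (N k).Normal) (h0 : N 0 = ⊤) (hl : N l = ⊥)
    (hle : ∀ k < l, N (k + 1) ≤ N k) (hab : ∀ k < l, ⁅N k, N k⁆ ≤ N (k + 1))
    (τ₀ : E →+* ℂ) (a : ℤ) (ha : D.HasOrder τ₀ (perm ⊥) a) (b : ℕ → ℕ → ℤ)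
    (hb : ∀ k < l, ∀ p : ℕ, p.Prime → D.HasOrder τ₀ (perm (pDerived p (N k))) (b k p))
    (r : ℕ → ℕ → ℕ) (hr : ∀ k < l, ∀ p : ℕ, p.Prime → a ≤ b k p + r k p)
    (hfew : ∀ k < l, Few (N k) (N (k + 1)) (r k))
    (V : Type) [AddCommGroup V] [Module E V] [FiniteDimensional E V] (ρ : Representation E G V) :
    D.Holds ρ.character := by
  have hG : Group.IsSolvable G := by
    have key : ∀ k ≤ l, derivedSeries G k ≤ N k := by
      intro k
      induction k with
      | zero =>
        intro _
        rw [h0]
        exact le_top
      | succ k ih =>
        intro hk
        rw [derivedSeries_succ]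
        exact (Subgroup.commutator_mono (ih (by omega)) (ih (by omega))).trans (hab k (by omega))
    refine ⟨⟨l, ?_⟩⟩
    rw [eq_bot_iff, ← hl]
    exact key l le_rfl
  obtain ⟨m, hm, hma⟩ := ha
  exact Pool.Agent.N28.DL.main_chain hζ D.mero D.period hmon τ₀ hG l N hnormal h0 hl hle hab r hfew
    (deg_of_regular hm) hma b hb hr ρ

end Pool.Agent.Results.MP_100fe7_nt.TwistsSolvable
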